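import Pool.Agent.Helper36.SPR.St5

/-!
# Project SPR3: module NTF (all blocks)
-/

set_option autoImplicit false

namespace Pool.Agent.Helper47.SPR

open Finset Pool.Agent.Helper36.SPR

private theorem dvd_Sm_NTF (y n g : ℕ) (hn : n ≠ 0) (hg : g ∣ n)
    (h : ∀ l : ℕ, l.Prime → l ∣ g → l ≤ y) : g ∣ Sm y n := by
  have hg0 : g ≠ 0 := fun h0 => hn (by rw [h0] at hg; exact zero_dvd_iff.1 hg)
  have h1 : g = ∏ l ∈ g.primeFactors, l ^ g.factorization l := by
    conv_lhs => rw [← Nat.prod_factorization_pow_eq_self hg0]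
    rfl
  have hsub : g.primeFactors ⊆ n.primeFactors.filter (fun l => l ≤ y) := by
    intro l hl
    have hl' := Nat.mem_primeFactors.1 hl
    rw [Finset.mem_filter, Nat.mem_primeFactors]
    exact ⟨⟨hl'.1, hl'.2.1.trans hg, hn⟩, h l hl'.1 hl'.2.1⟩
  unfold Sm
  rw [h1]
  refine dvd_trans (Finset.prod_dvd_prod_of_dvd _ _ (fun l _ => ?_))
    (Finset.prod_dvd_prod_of_subset _ _ _ hsub)
  exact pow_dvd_pow l ((Nat.factorization_le_iff_dvd hg0 hn).2 hg l)

private theorem Sm_pos_NTF (y n : ℕ) : 0 < Sm y n := by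
  unfold Sm
  apply Finset.prod_pos
  intro l hl
  have := (Nat.mem_primeFactors.1 (Finset.mem_filter.1 hl).1).1
  exact pow_pos this.pos _

private theorem Wb_pos_NTF (B : ℕ → Finset ℕ) (j : ℕ) (h : ∀ i < j, ∀ p ∈ B i, 2 < p) :
    0 < Wb B j := by
  unfold Wb
  apply Finset.prod_pos
  intro i hi
  apply Finset.prod_pos
  intro p hp
  have := h i (Finset.mem_range.1 hi) p hp
  omega

private theorem prime_Wb_NTF (B : ℕ → Finset ℕ) (j l : ℕ) (hl : l.Prime) (h : l ∣ Wb B j) :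
    ∃ i < j, ∃ p ∈ B i, l ∣ p - 1 := by
  unfold Wb at h
  obtain ⟨i, hi, h1⟩ := (hl.prime.dvd_finsetProd_iff _).1 h
  obtain ⟨p, hp, h2⟩ := (hl.prime.dvd_finsetProd_iff _).1 h1
  exact ⟨i, Finset.mem_range.1 hi, p, hp, h2⟩

private theorem order_NTF (p W y : ℕ) (hp : p.Prime) (hp2 : 2 < p) (hW : 0 < W)
    (hord : (p : ℝ) ^ (1 / 3 : ℝ) ≤ orderOf (2 : ZMod p))
    (hS : (Sm y (p - 1) : ℝ) ≤ (p : ℝ) ^ (1 / 6 : ℝ))
    (hl : ∀ l : ℕ, l.Prime → l ∣ W → l ≤ y) :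
    (p : ℝ) ^ (1 / 6 : ℝ) ≤ orderOf ((2 : ZMod p) ^ W) := by
  haveI : Fact p.Prime := ⟨hp⟩
  have h2 : (2 : ZMod p) ≠ 0 := by
    intro h
    have h3 : ((2 : ℕ) : ZMod p) = 0 := by exact_mod_cast h
    rw [ZMod.natCast_eq_zero_iff] at h3
    have := Nat.le_of_dvd (by norm_num) h3
    omega
  have hdv : orderOf (2 : ZMod p) ∣ p - 1 :=
    orderOf_dvd_of_pow_eq_one (ZMod.pow_card_sub_one_eq_one h2)
  have hp1 : p - 1 ≠ 0 := by omega
  set o := orderOf (2 : ZMod p) with ho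
  have hg : Nat.gcd o W ∣ Sm y (p - 1) := by
    apply dvd_Sm_NTF _ _ _ hp1 ((Nat.gcd_dvd_left _ _).trans hdv)
    intro l hlp hlg
    exact hl l hlp (hlg.trans (Nat.gcd_dvd_right _ _))
  have hgle : Nat.gcd o W ≤ Sm y (p - 1) := Nat.le_of_dvd (Sm_pos_NTF _ _) hg
  have hgpos : 0 < Nat.gcd o W := Nat.gcd_pos_of_pos_right _ hW
  rw [orderOf_pow' _ hW.ne', ← ho, Nat.cast_div (Nat.gcd_dvd_left _ _) (by exact_mod_cast hgpos.ne')]
  have hg' : (0 : ℝ) < (Nat.gcd o W : ℕ) := by exact_mod_cast hgpos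
  rw [le_div_iff₀ hg']
  have hp0 : (0 : ℝ) < p := by exact_mod_cast hp.pos
  have h3 : ((Nat.gcd o W : ℕ) : ℝ) ≤ (p : ℝ) ^ (1 / 6 : ℝ) :=
    le_trans (by exact_mod_cast hgle) hS
  have h4 : (p : ℝ) ^ (1 / 6 : ℝ) * (p : ℝ) ^ (1 / 6 : ℝ) = (p : ℝ) ^ (1 / 3 : ℝ) := by
    rw [← Real.rpow_add hp0]
    norm_num
  calc (p : ℝ) ^ (1 / 6 : ℝ) * ((Nat.gcd o W : ℕ) : ℝ)
      ≤ (p : ℝ) ^ (1 / 6 : ℝ) * (p : ℝ) ^ (1 / 6 : ℝ) :=
        mul_le_mul_of_nonneg_left h3 (by positivity)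
    _ = (p : ℝ) ^ (1 / 3 : ℝ) := h4
    _ ≤ o := hord

private theorem geom_NTF (R J : ℕ) (hR : 2 ≤ R) : ∑ j ∈ range J, R ^ (j + 1) ≤ R ^ (J + 1) := by
  induction J with
  | zero => simp
  | succ J ih =>
    rw [Finset.sum_range_succ]
    calc ∑ j ∈ range J, R ^ (j + 1) + R ^ (J + 1) ≤ R ^ (J + 1) + R ^ (J + 1) := by omega
      _ = 2 * R ^ (J + 1) := by ring
      _ ≤ R * R ^ (J + 1) := Nat.mul_le_mul_right _ hR
      _ = R ^ (J + 1 + 1) := by ring

theorem hNTF (hNTB : StNTB) : StNTF := by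
  obtain ⟨A, C₁, hA, hC₁, y₀, H⟩ := hNTB
  intro y₁
  set R : ℕ := C₁ * A with hR
  have hR8 : 8 ≤ R := by rw [hR]; nlinarith
  set z : ℕ := max (max y₀ y₁) 3 with hz
  have hz3 : 3 ≤ z := le_max_right _ _
  have hzy0 : y₀ ≤ z := (le_max_left _ _).trans (le_max_left _ _)
  have hzy1 : y₁ ≤ z := (le_max_right _ _).trans (le_max_left _ _)
  set Y : ℕ → ℕ := fun j => z ^ (R ^ j) with hY
  have hYz : ∀ j, z ≤ Y j := fun j => by
    show z ≤ z ^ (R ^ j)
    calc z = z ^ 1 := (pow_one z).symm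
      _ ≤ z ^ (R ^ j) := Nat.pow_le_pow_right (by omega) (Nat.one_le_pow _ _ (by omega))
  have hYmono : Monotone Y := by
    apply monotone_nat_of_le_succ
    intro j
    exact Nat.pow_le_pow_right (by omega) (Nat.pow_le_pow_right (by omega) (by omega))
  have hYsucc : ∀ j, Y j ^ (C₁ * A) = Y (j + 1) := by
    intro j
    show (z ^ (R ^ j)) ^ (C₁ * A) = z ^ (R ^ (j + 1))
    rw [← pow_mul, ← hR, ← pow_succ]
  choose B hB hBs using fun j => H (Y j) (hzy0.trans (hYz j))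
  have hB2 : ∀ j, ∀ p ∈ B j, Y j < p := by
    intro j p hp
    refine lt_of_le_of_lt ?_ (hB j p hp).2.1
    calc Y j = Y j ^ 1 := (pow_one _).symm
      _ ≤ Y j ^ C₁ := Nat.pow_le_pow_right (by have := hYz j; omega) (by omega)
  have hRr : (8 : ℝ) ≤ R := by exact_mod_cast hR8
  have hlogR : 0 < Real.log R := Real.log_pos (by linarith)
  have hzr : (3 : ℝ) ≤ z := by exact_mod_cast hz3
  have hlogz : 1 ≤ Real.log z := by
    rw [Real.le_log_iff_exp_le (by linarith)]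
    linarith [Real.exp_one_lt_d9]
  set K : ℝ := 8 * (R : ℝ) ^ 2 * Real.log z with hK
  have hK1 : 1 ≤ K := by rw [hK]; nlinarith
  refine ⟨1 / (2 * Real.log R), by positivity, ⌈Real.exp (K ^ 2)⌉₊, ?_⟩
  intro N hN
  have hNr : Real.exp (K ^ 2) ≤ N := (Nat.le_ceil _).trans (by exact_mod_cast hN)
  have hNpos : (0 : ℝ) < N := lt_of_lt_of_le (Real.exp_pos _) hNr
  have hLg : K ^ 2 ≤ Real.log N := by
    rw [Real.le_log_iff_exp_le hNpos]
    exact hNr
  set Lg := Real.log N with hLgdef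
  have hLg1 : 1 ≤ Lg := by nlinarith
  have hLg0 : 0 < Lg := by linarith
  have hll : 0 ≤ Real.log Lg := Real.log_nonneg hLg1
  set c : ℝ := 1 / (2 * Real.log R) with hc
  have hc0 : 0 < c := by positivity
  have hsq : K ≤ Real.sqrt Lg := Real.le_sqrt_of_sq_le hLg
  have hsq2 : Real.sqrt Lg * Real.sqrt Lg = Lg := Real.mul_self_sqrt hLg0.le
  set J : ℕ := ⌈c * Real.log Lg⌉₊ with hJ
  have hJ1 : c * Real.log Lg ≤ J := Nat.le_ceil _
  have hJ2 : (J : ℝ) < c * Real.log Lg + 1 := Nat.ceil_lt_add_one (by positivity)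
  refine ⟨J, B, fun j => Y (j + 1), hJ1, ?_, ?_⟩
  · intro j hj
    refine ⟨fun p hp => ?_, hBs j⟩
    obtain ⟨h1, h2, h3, h4, h5⟩ := hB j p hp
    have h6 := hB2 j p hp
    have h7 := hYz j
    refine ⟨h1, by omega, by omega, ?_, ?_⟩
    · show p ≤ Y (j + 1)
      rw [← hYsucc]; exact h3
    apply order_NTF p _ (Y j) h1 (by omega) _ h4 h5
    · intro l hl hlW
      obtain ⟨i, hi, q, hq, hlq⟩ := prime_Wb_NTF B j l hl hlW
      have h8 := hB2 i q hq
      have h9 := hYz i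
      have h10 : l ≤ q - 1 := Nat.le_of_dvd (by omega) hlq
      have h11 : q ≤ Y (i + 1) := by rw [← hYsucc]; exact (hB i q hq).2.2.1
      have h12 : Y (i + 1) ≤ Y j := hYmono (by omega)
      omega
    · apply Wb_pos_NTF
      intro i _ q hq
      have h8 := hB2 i q hq
      have h9 := hYz i
      omega
  · have e1 : ∏ j ∈ range J, Y (j + 1) = z ^ (∑ j ∈ range J, R ^ (j + 1)) := by
      rw [← Finset.prod_pow_eq_pow_sum]
    rw [e1, ← pow_mul]
    have h1 : (∑ j ∈ range J, R ^ (j + 1)) * 8 ≤ R ^ (J + 1) * 8 :=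
      Nat.mul_le_mul_right _ (geom_NTF R J (by omega))
    refine (Nat.pow_le_pow_right (by omega) h1).trans ?_
    have h2 : ((R : ℝ)) ^ (J + 1) ≤ (R : ℝ) ^ 2 * Real.sqrt Lg := by
      have hR0 : (0 : ℝ) < R := by linarith
      have e2 : ((R : ℝ)) ^ (J + 1) = Real.exp (((J : ℝ) + 1) * Real.log R) := by
        rw [← Real.rpow_natCast, Real.rpow_def_of_pos hR0]
        push_cast
        ring_nf
      have e3 : (R : ℝ) ^ 2 * Real.sqrt Lg = Real.exp (2 * Real.log R + 1 / 2 * Real.log Lg) := by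
        rw [Real.exp_add]
        congr 1
        · rw [← Real.log_rpow hR0, Real.exp_log (by positivity)]
          norm_num
        · rw [Real.sqrt_eq_rpow, Real.rpow_def_of_pos hLg0]
          ring_nf
      rw [e2, e3]
      apply Real.exp_le_exp.2
      have h3 : c * Real.log R = 1 / 2 := by
        rw [hc]
        field_simp
      have h4 : ((J : ℝ) + 1) * Real.log R ≤ (c * Real.log Lg + 2) * Real.log R :=
        mul_le_mul_of_nonneg_right (by linarith) hlogR.le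
      have h5 : (c * Real.log Lg + 2) * Real.log R =
          (c * Real.log R) * Real.log Lg + 2 * Real.log R := by ring
      rw [h5, h3] at h4
      linarith
    have h3 : ((z ^ (R ^ (J + 1) * 8) : ℕ) : ℝ) ≤ N := by
      have hz0 : (0 : ℝ) < z := by linarith
      have e4 : ((z ^ (R ^ (J + 1) * 8) : ℕ) : ℝ) =
          Real.exp ((R : ℝ) ^ (J + 1) * 8 * Real.log z) := by
        push_cast
        rw [← Real.rpow_natCast, Real.rpow_def_of_pos hz0]
        push_cast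
        ring_nf
      rw [e4, ← Real.exp_log hNpos]
      apply Real.exp_le_exp.2
      calc (R : ℝ) ^ (J + 1) * 8 * Real.log z ≤ (R : ℝ) ^ 2 * Real.sqrt Lg * 8 * Real.log z := by
            have h0 : 0 ≤ 8 * Real.log z := by linarith
            nlinarith [mul_le_mul_of_nonneg_right h2 h0]
        _ = K * Real.sqrt Lg := by rw [hK]; ring
        _ ≤ Real.sqrt Lg * Real.sqrt Lg :=
            mul_le_mul_of_nonneg_right hsq (Real.sqrt_nonneg _)
        _ = Real.log N := by rw [hsq2]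
    exact_mod_cast h3

end Pool.Agent.Helper47.SPR
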